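import Pool.Agent.Helper44.KS.GoalsD

/-!
# KS: presence at every place (`S_PRE`)
-/

namespace Pool.Agent.Helper58.KS

open _root_.Pool.Agent.Helper44.KS
open MeasureTheory Filter Topology Set
open scoped ENNReal ContDiff

noncomputable section

/-- A geometric sequence beats a constant. -/
theorem exists_pow (q1 q2 C K : ℝ) (h1 : 0 < q1) (h2 : 0 ≤ q2) (h12 : q2 < q1) (hK : 0 < K) :
    ∃ m : ℕ, q2 ^ m * C < K * q1 ^ m := by
  have hr : q2 / q1 < 1 := by rw [div_lt_one h1]; exact h12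
  have hr0 : 0 ≤ q2 / q1 := div_nonneg h2 h1.le
  have ht : Tendsto (fun m : ℕ => (q2 / q1) ^ m * C) atTop (𝓝 (0 * C)) :=
    (tendsto_pow_atTop_nhds_zero_of_lt_one hr0 hr).mul_const C
  rw [zero_mul] at ht
  obtain ⟨m, hm⟩ := (ht.eventually (gt_mem_nhds hK)).exists
  refine ⟨m, ?_⟩
  rw [div_pow, div_mul_eq_mul_div, div_lt_iff₀ (pow_pos h1 m)] at hm
  exact hm

theorem pre (h1 : S_TRL) (h2 : S_TCT) : S_PRE := by
  classical
  intro r T κ ε a0 w0 hκ hε hw0 hgiven s
  have hR := T.R_pos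
  set M0 : ℝ := 4 * r * T.R ^ 2 + 1 with hM0
  have hM0pos : 0 < M0 := by positivity
  set D1 : ℝ := min (r * ε ^ 2) (4 * r * T.R ^ 2) with hD1
  set q1 : ℝ := 1 - D1 / M0 with hq1
  set q2 : ℝ := max 0 (1 - (r + 2) ^ 2 * ε ^ 2 / M0) with hq2
  have hq1pos : 0 < q1 := by
    have : D1 / M0 < 1 := by
      rw [div_lt_one hM0pos]
      have := min_le_right ((r : ℝ) * ε ^ 2) (4 * r * T.R ^ 2)
      linarith
    linarith
  have hq2nn : 0 ≤ q2 := le_max_left _ _
  have hq12 : q2 < q1 := by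
    rw [hq2, max_lt_iff]
    refine ⟨hq1pos, ?_⟩
    have : D1 / M0 < (r + 2) ^ 2 * ε ^ 2 / M0 := by
      apply div_lt_div_of_pos_right _ hM0pos
      have h3 := min_le_left ((r : ℝ) * ε ^ 2) (4 * r * T.R ^ 2)
      have h4 : (r : ℝ) < (r + 2) ^ 2 := by
        have : (0 : ℝ) ≤ r := Nat.cast_nonneg r
        nlinarith
      have h5 : 0 < ε ^ 2 := by positivity
      nlinarith
    linarith
  set Cc : ℝ := 15 * (4 * ε + 2 * T.τ * T.R + 2) with hCc
  obtain ⟨m, hm⟩ := exists_pow q1 q2 Cc (κ / 2) hq1pos hq2nn hq12 (by linarith)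
  -- the polynomial
  set q : MvPolynomial (Fin r) ℝ :=
    1 - (∑ i, (MvPolynomial.X i - MvPolynomial.C (w0 i)) ^ 2) * MvPolynomial.C (1 / M0) with hqdef
  have hqe : ∀ w : Fin r → ℝ, MvPolynomial.eval w (q ^ m) = (1 - (∑ i, (w i - w0 i) ^ 2) / M0) ^ m := by
    intro w
    simp [hqdef, div_eq_mul_inv]
  -- the bump
  let f : ContDiffBump (a0 : ℝ) := ⟨ε, 2 * ε, hε, by linarith⟩
  have hf1 : ∀ y, |y - a0| ≤ ε → f y = 1 := by
    intro y hy
    exact f.one_of_mem_closedBall (by simpa [Metric.mem_closedBall, Real.dist_eq] using hy)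
  have hf0 : ∀ y, 2 * ε ≤ |y - a0| → f y = 0 := by
    intro y hy
    exact f.zero_of_le_dist (by simpa [Real.dist_eq] using hy)
  have hfnn : ∀ y, 0 ≤ f y := fun y => f.nonneg
  have hfle : ∀ y, f y ≤ 1 := fun y => f.le_one
  have hlim := h1 r T f f.contDiff f.hasCompactSupport s (q ^ m)
  have hKpos : 0 < κ / 2 * q1 ^ m := by positivity
  have hev := hlim.eventually (lt_mem_nhds (show -(κ / 2 * q1 ^ m) < 0 by linarith))
  filter_upwards [hev] with N hN
  by_contra hno
  push Not at hno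
  have hS := T.S_pos N
  rw [lt_div_iff₀ hS] at hN
  -- bounds of `∑ (w - w0)^2`
  have hsum_le : ∀ p ∈ T.P N, ∑ i, (T.w N p i - w0 i) ^ 2 ≤ 4 * r * T.R ^ 2 := by
    intro p hp
    calc ∑ i, (T.w N p i - w0 i) ^ 2 ≤ ∑ _i : Fin r, 4 * T.R ^ 2 := by
          apply Finset.sum_le_sum
          intro i _
          have ha := abs_le.mp (T.bd N p hp i)
          have hb := abs_le.mp (hw0 i)
          nlinarith
      _ = 4 * r * T.R ^ 2 := by
          rw [Finset.sum_const, Finset.card_univ, Fintype.card_fin, nsmul_eq_mul]; ring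
  have hqpos : ∀ p ∈ T.P N, 0 ≤ 1 - (∑ i, (T.w N p i - w0 i) ^ 2) / M0 := by
    intro p hp
    have : (∑ i, (T.w N p i - w0 i) ^ 2) / M0 ≤ 1 := by
      rw [div_le_one hM0pos]
      have := hsum_le p hp
      linarith
    linarith
  -- the upper bound
  have hup : ∑ p ∈ T.P N, f (T.a N p - s) * MvPolynomial.eval (T.w N p) (q ^ m) ≤
      q2 ^ m * (Cc * T.S N) := by
    have h3 := h2 r T N (fun _ => 0) (a0 + s - 2 * ε) (a0 + s + 2 * ε)
      (by simpa using T.τ_pos.le) (by linarith)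
    simp only [zero_mul, Finset.sum_const_zero, add_zero] at h3
    set F := (T.P N).filter fun p => a0 + s - 2 * ε ≤ T.a N p ∧ T.a N p ≤ a0 + s + 2 * ε with hF
    have h4 : ∑ p ∈ T.P N, f (T.a N p - s) * MvPolynomial.eval (T.w N p) (q ^ m) ≤
        ∑ p ∈ T.P N, if (a0 + s - 2 * ε ≤ T.a N p ∧ T.a N p ≤ a0 + s + 2 * ε) then q2 ^ m else 0 := by
      apply Finset.sum_le_sum
      intro p hp
      by_cases hc : |T.a N p - s - a0| < 2 * ε
      · have hc' := abs_lt.mp hc
        rw [if_pos ⟨by linarith, by linarith⟩]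
        obtain ⟨i, hi⟩ := hno p hp (by
          rw [show T.a N p - (a0 + s) = T.a N p - s - a0 by ring]; exact hc.le)
        have h5 : ((r : ℝ) + 2) ^ 2 * ε ^ 2 ≤ ∑ i, (T.w N p i - w0 i) ^ 2 := by
          calc ((r : ℝ) + 2) ^ 2 * ε ^ 2 = ((r + 2) * ε) ^ 2 := by ring
            _ ≤ |T.w N p i - w0 i| ^ 2 := by
                apply pow_le_pow_left₀ (by positivity) hi.le
            _ = (T.w N p i - w0 i) ^ 2 := sq_abs _
            _ ≤ ∑ i, (T.w N p i - w0 i) ^ 2 :=
                Finset.single_le_sum (f := fun i => (T.w N p i - w0 i) ^ 2)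
                  (fun j _ => sq_nonneg _) (Finset.mem_univ i)
        have h6 : 1 - (∑ i, (T.w N p i - w0 i) ^ 2) / M0 ≤ q2 := by
          refine le_trans ?_ (le_max_right _ _)
          have := div_le_div_of_nonneg_right h5 hM0pos.le
          linarith
        rw [hqe]
        have h7 := pow_le_pow_left₀ (hqpos p hp) h6 m
        have h8 := pow_nonneg (hqpos p hp) m
        calc f (T.a N p - s) * (1 - (∑ i, (T.w N p i - w0 i) ^ 2) / M0) ^ m
            ≤ 1 * (1 - (∑ i, (T.w N p i - w0 i) ^ 2) / M0) ^ m :=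
              mul_le_mul_of_nonneg_right (hfle _) h8
          _ ≤ q2 ^ m := by rw [one_mul]; exact h7
      · push Not at hc
        rw [hf0 _ hc, zero_mul]
        split_ifs
        · positivity
        · exact le_rfl
    refine h4.trans ?_
    rw [← Finset.sum_filter, Finset.sum_const, nsmul_eq_mul, mul_comm]
    apply mul_le_mul_of_nonneg_left _ (pow_nonneg hq2nn m)
    refine h3.trans (le_of_eq ?_)
    rw [hCc]; ring
  -- the lower bound
  have hlow : κ * T.S N * q1 ^ m ≤ ∑ p ∈ T.P N, f (T.a N p) * MvPolynomial.eval (T.w N p) (q ^ m) := by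
    set F := (T.P N).filter fun p => |T.a N p - a0| ≤ ε ∧ ∀ i, |T.w N p i - w0 i| ≤ ε with hF
    calc κ * T.S N * q1 ^ m ≤ (F.card : ℝ) * q1 ^ m :=
          mul_le_mul_of_nonneg_right (hgiven N) (pow_nonneg hq1pos.le m)
      _ = ∑ _p ∈ F, q1 ^ m := by rw [Finset.sum_const, nsmul_eq_mul]
      _ ≤ ∑ p ∈ F, f (T.a N p) * MvPolynomial.eval (T.w N p) (q ^ m) := by
          apply Finset.sum_le_sum
          intro p hp
          rw [hF, Finset.mem_filter] at hp
          obtain ⟨hp1, hp2, hp3⟩ := hp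
          rw [hf1 _ hp2, one_mul, hqe]
          apply pow_le_pow_left₀ hq1pos.le
          have h5 : ∑ i, (T.w N p i - w0 i) ^ 2 ≤ D1 := by
            rw [hD1, le_min_iff]
            refine ⟨?_, hsum_le p hp1⟩
            calc ∑ i, (T.w N p i - w0 i) ^ 2 ≤ ∑ _i : Fin r, ε ^ 2 := by
                  apply Finset.sum_le_sum
                  intro i _
                  rw [← sq_abs]
                  exact pow_le_pow_left₀ (abs_nonneg _) (hp3 i) 2
              _ = r * ε ^ 2 := by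
                  rw [Finset.sum_const, Finset.card_univ, Fintype.card_fin, nsmul_eq_mul]
          have := div_le_div_of_nonneg_right h5 hM0pos.le
          rw [hq1]
          linarith
      _ ≤ ∑ p ∈ T.P N, f (T.a N p) * MvPolynomial.eval (T.w N p) (q ^ m) := by
          apply Finset.sum_le_sum_of_subset_of_nonneg (Finset.filter_subset _ _)
          intro p hp _
          rw [hqe]
          exact mul_nonneg (hfnn _) (pow_nonneg (hqpos p hp) m)
  have hsplit : ∑ p ∈ T.P N, (f (T.a N p - s) - f (T.a N p)) * MvPolynomial.eval (T.w N p) (q ^ m) =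
      ∑ p ∈ T.P N, f (T.a N p - s) * MvPolynomial.eval (T.w N p) (q ^ m) -
      ∑ p ∈ T.P N, f (T.a N p) * MvPolynomial.eval (T.w N p) (q ^ m) := by
    rw [← Finset.sum_sub_distrib]
    exact Finset.sum_congr rfl fun p _ => by ring
  rw [hsplit] at hN
  nlinarith [mul_lt_mul_of_pos_right hm hS]

end

end Pool.Agent.Helper58.KS
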